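import Pool.Agent.Lib.MP_77dff5_pr.Main
import Pool.Agent.Lib.MP_77dff5_pr.Bridge

/-! The number of vertices of degree `k` in a uniform random labelled planar graph is
asymptotically normal. -/

open MeasureTheory ProbabilityTheory Filter Pool.Agent.Lib.MP_77dff5_pr

theorem Pool.Agent.Results.MP_77dff5_pr.DegreeCLT.result (k : ℕ) (hk : 1 ≤ k) :
    (∀ᶠ n in atTop, 0 < Var[degNum k n; planarLaw n]) ∧
      TendstoInDistribution
        (fun n G => (degNum k n G - ∫ H, degNum k n H ∂planarLaw n) /
          √(Var[degNum k n; planarLaw n]))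
        atTop id planarLaw (gaussianReal 0 1) := by
  obtain ⟨_, σ2, h0, -, h1, h2⟩ := main k hk
  exact bridge_final k h0 h1 h2
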